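import Pool.Agent.Helper31.AP.Fib
import Pool.Agent.Helper31.AP.Pivot
import Pool.Agent.Helper75.AP.Basic
import Pool.Agent.Helper75.AP.Additive
import Pool.Agent.Helper75.AP.Size

/-!
The induction step for the asymptotic dimension of `GL`.
-/

set_option autoImplicit false

namespace Pool.Agent.Helper61.Apc

open Matrix

/-! ### entry sums of rectangular matrices -/

section
variable {l m n K : Type*} [Fintype l] [Fintype m] [Fintype n] [Field K] (v : AbsoluteValue K ℝ)

/-- the sum of the absolute values of the entries -/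
noncomputable def mSum (M : Matrix m n K) : ℝ := ∑ i, ∑ j, v (M i j)

theorem mSum_nonneg (M : Matrix m n K) : 0 ≤ mSum v M :=
  Finset.sum_nonneg fun _ _ => Finset.sum_nonneg fun _ _ => v.nonneg _

theorem le_mSum (M : Matrix m n K) (i : m) (j : n) : v (M i j) ≤ mSum v M := by
  unfold mSum
  calc v (M i j) ≤ ∑ j, v (M i j) :=
        Finset.single_le_sum (f := fun j => v (M i j)) (fun _ _ => v.nonneg _)
          (Finset.mem_univ j)
    _ ≤ _ := Finset.single_le_sum (f := fun i => ∑ j, v (M i j))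
          (fun _ _ => Finset.sum_nonneg fun _ _ => v.nonneg _) (Finset.mem_univ i)

theorem mSum_smul (c : K) (M : Matrix m n K) : mSum v (c • M) = v c * mSum v M := by
  unfold mSum
  simp only [Matrix.smul_apply, smul_eq_mul, map_mul, Finset.mul_sum]

theorem mSum_mul (A : Matrix l m K) (B : Matrix m n K) : mSum v (A * B) ≤ mSum v A * mSum v B := by
  have h1 : mSum v (A * B) ≤ ∑ i, ∑ j, ∑ k, v (A i k) * v (B k j) := by
    unfold mSum
    refine Finset.sum_le_sum fun i _ => Finset.sum_le_sum fun j _ => ?_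
    rw [Matrix.mul_apply]
    refine (v.sum_le _ _).trans ?_
    simp only [map_mul]
    exact le_rfl
  refine h1.trans ?_
  have h2 : ∀ i, ∑ j, ∑ k, v (A i k) * v (B k j) ≤ (∑ k, v (A i k)) * mSum v B := by
    intro i
    rw [Finset.sum_comm, Finset.sum_mul]
    refine Finset.sum_le_sum fun k _ => ?_
    rw [← Finset.mul_sum]
    refine mul_le_mul_of_nonneg_left ?_ (v.nonneg _)
    exact Finset.single_le_sum (f := fun i => ∑ j, v (B i j))
          (fun _ _ => Finset.sum_nonneg fun _ _ => v.nonneg _) (Finset.mem_univ k)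
  calc ∑ i, ∑ j, ∑ k, v (A i k) * v (B k j) ≤ ∑ i, (∑ k, v (A i k)) * mSum v B :=
        Finset.sum_le_sum fun i _ => h2 i
    _ = mSum v A * mSum v B := by rw [← Finset.sum_mul]; rfl

theorem mSum_neg (A : Matrix m n K) : mSum v (-A) = mSum v A := by
  unfold mSum
  simp only [Matrix.neg_apply, map_neg_eq_map]

theorem mSum_sub_comm (A B : Matrix m n K) : mSum v (A - B) = mSum v (B - A) := by
  rw [← mSum_neg, neg_sub]

theorem mSum_fromBlocks (A : Matrix n n K) (B : Matrix n Unit K) (b : K) :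
    mSum v (Matrix.fromBlocks A B (0 : Matrix Unit n K)
      (Matrix.of fun _ _ => b : Matrix Unit Unit K)) = mSum v A + mSum v B + v b := by
  unfold mSum
  simp only [Fintype.sum_sum_type, Matrix.fromBlocks_apply₁₁, Matrix.fromBlocks_apply₁₂,
    Matrix.fromBlocks_apply₂₁, Matrix.fromBlocks_apply₂₂, Finset.sum_add_distrib,
    Matrix.zero_apply, map_zero, Finset.sum_const_zero, Matrix.of_apply,
    Finset.univ_unique, Finset.sum_singleton]
  ring

end

section
variable {n K : Type*} [Fintype n] [DecidableEq n] [Field K] (v : AbsoluteValue K ℝ)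

theorem glSize_eq_mSum (g : GL n K) :
    glSize v g = mSum v (g : Matrix n n K) + mSum v ((g⁻¹ : GL n K) : Matrix n n K) := by
  unfold glSize mSum
  simp only [Finset.sum_add_distrib]

theorem mSum_le_glSize (g : GL n K) : mSum v (g : Matrix n n K) ≤ glSize v g := by
  rw [glSize_eq_mSum]
  linarith [mSum_nonneg v ((g⁻¹ : GL n K) : Matrix n n K)]

/-- the corner column of `p⁻¹ p'` -/
noncomputable def col (a : GL n K) (u u' : Matrix n Unit K) (b b' : Kˣ) : Matrix n Unit K :=
  (b' : K) • (((a⁻¹ : GL n K) : Matrix n n K) * (((b'⁻¹ : Kˣ) : K) • u' - ((b⁻¹ : Kˣ) : K) • u))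

theorem block_quot (a a' : GL n K) (u u' : Matrix n Unit K) (b b' : Kˣ)
    (p p' : GL (n ⊕ Unit) K)
    (hp : (p : Matrix (n ⊕ Unit) (n ⊕ Unit) K) =
      Matrix.fromBlocks (a : Matrix n n K) u 0 (Matrix.of fun _ _ => (b : K)))
    (hp' : (p' : Matrix (n ⊕ Unit) (n ⊕ Unit) K) =
      Matrix.fromBlocks (a' : Matrix n n K) u' 0 (Matrix.of fun _ _ => (b' : K))) :
    ((p⁻¹ * p' : GL (n ⊕ Unit) K) : Matrix (n ⊕ Unit) (n ⊕ Unit) K) =
      Matrix.fromBlocks ((a⁻¹ * a' : GL n K) : Matrix n n K) (col a u u' b b') 0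
        (Matrix.of fun _ _ => ((b⁻¹ * b' : Kˣ) : K)) := by
  have key : (p : Matrix (n ⊕ Unit) (n ⊕ Unit) K) *
      Matrix.fromBlocks ((a⁻¹ * a' : GL n K) : Matrix n n K) (col a u u' b b') 0
        (Matrix.of fun _ _ => ((b⁻¹ * b' : Kˣ) : K)) = (p' : Matrix (n ⊕ Unit) (n ⊕ Unit) K) := by
    rw [hp, hp', Matrix.fromBlocks_multiply]
    have e1 : (a : Matrix n n K) * ((a⁻¹ * a' : GL n K) : Matrix n n K) +
        u * (0 : Matrix Unit n K) = a' := by
      rw [Matrix.mul_zero, add_zero, ← Units.val_mul, mul_inv_cancel_left]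
    have e2 : (a : Matrix n n K) * col a u u' b b' +
        u * (Matrix.of fun _ _ => ((b⁻¹ * b' : Kˣ) : K) : Matrix Unit Unit K) = u' := by
      have e3 : u * (Matrix.of fun _ _ => ((b⁻¹ * b' : Kˣ) : K) : Matrix Unit Unit K) =
          ((b⁻¹ * b' : Kˣ) : K) • u := by
        ext i j
        simp [Matrix.mul_apply, mul_comm]
      rw [e3, col, Matrix.mul_smul, ← Matrix.mul_assoc, ← Units.val_mul, mul_inv_cancel]
      rw [Units.val_one, Matrix.one_mul, smul_sub, smul_smul, smul_smul, ← Units.val_mul,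
        ← Units.val_mul, mul_inv_cancel, mul_comm b' b⁻¹]
      simp
    have e4 : (0 : Matrix Unit n K) * ((a⁻¹ * a' : GL n K) : Matrix n n K) +
        (Matrix.of fun _ _ => (b : K) : Matrix Unit Unit K) * (0 : Matrix Unit n K) = 0 := by simp
    have e5 : (0 : Matrix Unit n K) * col a u u' b b' +
        (Matrix.of fun _ _ => (b : K) : Matrix Unit Unit K) *
          (Matrix.of fun _ _ => ((b⁻¹ * b' : Kˣ) : K) : Matrix Unit Unit K) =
            Matrix.of fun _ _ => (b' : K) := by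
      ext i j
      simp [Matrix.mul_apply]
    rw [e1, e2, e4, e5]
  rw [Units.val_mul, ← key, ← Matrix.mul_assoc, ← Units.val_mul, inv_mul_cancel, Units.val_one,
    Matrix.one_mul]

theorem block_size (a a' : GL n K) (u u' : Matrix n Unit K) (b b' : Kˣ)
    (p p' : GL (n ⊕ Unit) K)
    (hp : (p : Matrix (n ⊕ Unit) (n ⊕ Unit) K) =
      Matrix.fromBlocks (a : Matrix n n K) u 0 (Matrix.of fun _ _ => (b : K)))
    (hp' : (p' : Matrix (n ⊕ Unit) (n ⊕ Unit) K) =
      Matrix.fromBlocks (a' : Matrix n n K) u' 0 (Matrix.of fun _ _ => (b' : K))) :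
    glSize v (p⁻¹ * p') = glSize v (a⁻¹ * a') + mSum v (col a u u' b b') +
      mSum v (col a' u' u b' b) + v ((b⁻¹ * b' : Kˣ) : K) + v ((b'⁻¹ * b : Kˣ) : K) := by
  have e : (p⁻¹ * p')⁻¹ = p'⁻¹ * p := by group
  have e' : (a⁻¹ * a')⁻¹ = a'⁻¹ * a := by group
  rw [glSize_eq_mSum, glSize_eq_mSum, e, e', block_quot a a' u u' b b' p p' hp hp',
    block_quot a' a u' u b' b p' p hp' hp, mSum_fromBlocks, mSum_fromBlocks]
  ring

end

theorem abs_log_le {K : Type*} [Field K] (v : AbsoluteValue K ℝ) (b b' : Kˣ) {R : ℝ}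
    (h1 : v ((b⁻¹ * b' : Kˣ) : K) ≤ R) (h2 : v ((b'⁻¹ * b : Kˣ) : K) ≤ R) :
    |Real.log (v b) - Real.log (v b')| ≤ Real.log R := by
  have hb : 0 < v b := v.pos b.ne_zero
  have hb' : 0 < v b' := v.pos b'.ne_zero
  have e1 : v ((b⁻¹ * b' : Kˣ) : K) = v b' / v b := by
    rw [Units.val_mul, map_mul, Units.val_inv_eq_inv_val, map_inv₀]
    field_simp
  have e2 : v ((b'⁻¹ * b : Kˣ) : K) = v b / v b' := by
    rw [Units.val_mul, map_mul, Units.val_inv_eq_inv_val, map_inv₀]
    field_simp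
  rw [e1] at h1
  rw [e2] at h2
  have l1 := Real.log_le_log (div_pos hb' hb) h1
  have l2 := Real.log_le_log (div_pos hb hb') h2
  rw [Real.log_div hb'.ne' hb.ne'] at l1
  rw [Real.log_div hb.ne' hb'.ne'] at l2
  rw [abs_le]
  constructor <;> linarith

theorem le_exp_of_log {K : Type*} [Field K] (v : AbsoluteValue K ℝ) (b b' : Kˣ) {R : ℝ}
    (h : |Real.log (v b) - Real.log (v b')| ≤ R) :
    v ((b⁻¹ * b' : Kˣ) : K) ≤ Real.exp R := by
  have hb : 0 < v b := v.pos b.ne_zero
  have hb' : 0 < v b' := v.pos b'.ne_zero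
  have e1 : v ((b⁻¹ * b' : Kˣ) : K) = v b' / v b := by
    rw [Units.val_mul, map_mul, Units.val_inv_eq_inv_val, map_inv₀]
    field_simp
  rw [e1, ← Real.log_le_iff_le_exp (div_pos hb' hb), Real.log_div hb'.ne' hb.ne']
  rw [abs_le] at h
  linarith [h.1]

/-! ### the induction step -/

theorem dim_GL_step {n K : Type*} [Fintype n] [DecidableEq n] [Field K]
    (v : AbsoluteValue K ℝ) {c t : ℕ} (hK : Dim (fun x y : K => v (x - y)) c)
    (h : Dim (fun g g' : GL n K => glSize v (g⁻¹ * g')) t) :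
    ∃ s, Dim (fun g g' : GL (n ⊕ Unit) K => glSize v (g⁻¹ * g')) s := by
  classical
  obtain ⟨C, hC⟩ := exists_pivot (n := n) v
  choose k hk a u b hp using hC
  have hC0 : 0 ≤ C := (glSize_nonneg v (k 1)).trans (hk 1)
  -- comparison of `g⁻¹ g'` and `p(g)⁻¹ p(g')`
  have hpq : ∀ g g', glSize v ((g * k g)⁻¹ * (g' * k g')) ≤ C * glSize v (g⁻¹ * g') * C := by
    intro g g'
    have e : (g * k g)⁻¹ * (g' * k g') = (k g)⁻¹ * (g⁻¹ * g') * k g' := by group
    rw [e]
    refine (glSize_mul v _ _).trans ?_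
    refine mul_le_mul ?_ (hk g') (glSize_nonneg v _)
      (mul_nonneg hC0 (glSize_nonneg v _))
    refine (glSize_mul v _ _).trans ?_
    rw [glSize_inv]
    exact mul_le_mul_of_nonneg_right (hk g) (glSize_nonneg v _)
  have hqp : ∀ g g', glSize v (g⁻¹ * g') ≤ C * glSize v ((g * k g)⁻¹ * (g' * k g')) * C := by
    intro g g'
    have e : g⁻¹ * g' = k g * ((g * k g)⁻¹ * (g' * k g')) * (k g')⁻¹ := by group
    rw [e]
    refine (glSize_mul v _ _).trans ?_
    rw [glSize_inv v (k g')]
    refine mul_le_mul ?_ (hk g') (glSize_nonneg v _)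
      (mul_nonneg hC0 (glSize_nonneg v _))
    refine (glSize_mul v _ _).trans ?_
    exact mul_le_mul_of_nonneg_right (hk g) (glSize_nonneg v _)
  have hsz : ∀ g g', glSize v ((g * k g)⁻¹ * (g' * k g')) =
      glSize v ((a g)⁻¹ * a g') + mSum v (col (a g) (u g) (u g') (b g) (b g')) +
      mSum v (col (a g') (u g') (u g) (b g') (b g)) + v (((b g)⁻¹ * b g' : Kˣ) : K) +
        v (((b g')⁻¹ * b g : Kˣ) : K) := fun g g' =>
    block_size v (a g) (a g') (u g) (u g') (b g) (b g') (g * k g) (g' * k g') (hp g) (hp g')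
  -- the base
  have hY := dim_prod h dim_real
  -- the additive group
  obtain ⟨t', ht'⟩ := dim_pi (ι := n) (X := fun _ => K) (δ := fun _ x y => v (x - y))
    (fun _ _ _ => v.nonneg _) (fun _ => ⟨c, hK⟩)
  refine ⟨t * 2 * t', dim_fib (fun g => (a g, Real.log (v (b g)))) ?_ ?_ hY ?_⟩
  · rintro ⟨x1, x2⟩ ⟨y1, y2⟩
    have e : glSize v (x1⁻¹ * y1) = glSize v (y1⁻¹ * x1) := by
      rw [← glSize_inv v (x1⁻¹ * y1), _root_.mul_inv_rev, _root_.inv_inv]
    simp only [e, abs_sub_comm x2 y2]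
  · intro r
    refine ⟨max (C * r * C) (Real.log (C * r * C)), fun g g' hg => ?_⟩
    have h1 : glSize v ((g * k g)⁻¹ * (g' * k g')) ≤ C * r * C :=
      (hpq g g').trans (mul_le_mul_of_nonneg_right (mul_le_mul_of_nonneg_left hg hC0) hC0)
    rw [hsz g g'] at h1
    have p1 := glSize_nonneg v ((a g)⁻¹ * a g')
    have p2 := mSum_nonneg v (col (a g) (u g) (u g') (b g) (b g'))
    have p3 := mSum_nonneg v (col (a g') (u g') (u g) (b g') (b g))
    have p4 := v.nonneg (((b g)⁻¹ * b g' : Kˣ) : K)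
    have p5 := v.nonneg (((b g')⁻¹ * b g : Kˣ) : K)
    refine max_le_max (by linarith) ?_
    exact abs_log_le v (b g) (b g') (by linarith) (by linarith)
  · intro ρ r
    -- scale and bound in the additive group
    obtain ⟨D₁, B, hB1, hB2⟩ := ht' (ρ * (C * r * C) * Real.exp ρ)
    refine ⟨C * (ρ * ρ + Real.exp ρ * (ρ * D₁) + Real.exp ρ * (ρ * D₁) +
      Real.exp ρ * Real.exp ρ + Real.exp ρ * Real.exp ρ) * C, fun x₀ => ?_⟩
    let W : GL (n ⊕ Unit) K → Matrix n Unit K := fun g => (((b g)⁻¹ : Kˣ) : K) • u g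
    let z : GL (n ⊕ Unit) K → Matrix n Unit K := fun g =>
      (b x₀ : K) • ((((a x₀)⁻¹ : GL n K) : Matrix n n K) * (W g - W x₀))
    let F : Set (GL (n ⊕ Unit) K) := {g | max (glSize v ((a x₀)⁻¹ * a g))
      |Real.log (v (b x₀)) - Real.log (v (b g))| ≤ ρ}
    refine ⟨fun i => {g | g ∈ F ∧ (fun j => z g j ()) ∈ B i}, ?_, ?_⟩
    · intro x hx
      obtain ⟨i, hi⟩ := hB1 (fun j => z x j ())
      exact ⟨i, hx, hi⟩
    · have hsum : ∀ g g', ∑ j, v (z g j () - z g' j ()) = mSum v (z g - z g') := by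
        intro g g'
        unfold mSum
        simp
      have hzdiff : ∀ g g', z g' - z g =
          (b x₀ : K) • ((((a x₀)⁻¹ : GL n K) : Matrix n n K) * (W g' - W g)) := by
        intro g g'
        simp only [z]
        rw [← smul_sub, ← Matrix.mul_sub, sub_sub_sub_cancel_right]
      -- `z` difference from the column
      have hz1 : ∀ g g', z g' - z g = (((b g')⁻¹ * b x₀ : Kˣ) : K) •
          ((((a x₀)⁻¹ * a g : GL n K) : Matrix n n K) *
            col (a g) (u g) (u g') (b g) (b g')) := by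
        intro g g'
        rw [hzdiff, col, Matrix.mul_smul, ← Matrix.mul_assoc, ← Units.val_mul, smul_smul,
          ← Units.val_mul]
        congr 2
        · rw [mul_comm, mul_inv_cancel_left]
        · congr 1
          rw [mul_assoc, mul_inv_cancel, mul_one]
      have hz2 : ∀ g g', col (a g) (u g) (u g') (b g) (b g') = (((b x₀)⁻¹ * b g' : Kˣ) : K) •
          ((((a g)⁻¹ * a x₀ : GL n K) : Matrix n n K) * (z g' - z g)) := by
        intro g g'
        rw [hzdiff, col, Matrix.mul_smul, ← Matrix.mul_assoc, ← Units.val_mul, smul_smul,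
          ← Units.val_mul]
        congr 2
        · rw [mul_comm, mul_inv_cancel_left]
        · congr 1
          rw [mul_assoc, mul_inv_cancel, mul_one]
      have hF1 : ∀ g ∈ F, glSize v ((a x₀)⁻¹ * a g) ≤ ρ := fun g hg => (le_max_left _ _).trans hg
      have hF1' : ∀ g ∈ F, glSize v ((a g)⁻¹ * a x₀) ≤ ρ := by
        intro g hg
        have e : glSize v ((a g)⁻¹ * a x₀) = glSize v ((a x₀)⁻¹ * a g) := by
          rw [← glSize_inv v ((a g)⁻¹ * a x₀), _root_.mul_inv_rev, _root_.inv_inv]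
        rw [e]
        exact hF1 g hg
      have hF2 : ∀ g ∈ F, v (((b x₀)⁻¹ * b g : Kˣ) : K) ≤ Real.exp ρ := fun g hg =>
        le_exp_of_log v (b x₀) (b g) ((le_max_right _ _).trans hg)
      have hF2' : ∀ g ∈ F, v (((b g)⁻¹ * b x₀ : Kˣ) : K) ≤ Real.exp ρ := fun g hg =>
        le_exp_of_log v (b g) (b x₀) (by
          rw [abs_sub_comm]
          exact (le_max_right _ _).trans hg)
      have hρ : ∀ g ∈ F, 0 ≤ ρ := fun g hg => (glSize_nonneg v _).trans (hF1 g hg)
      -- a step in `F` is a bounded step of `z`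
      have hstep : ∀ g ∈ F, ∀ g' ∈ F, glSize v (g⁻¹ * g') ≤ r →
          mSum v (z g' - z g) ≤ ρ * (C * r * C) * Real.exp ρ := by
        intro g hg g' hg' hr
        have h1 : glSize v ((g * k g)⁻¹ * (g' * k g')) ≤ C * r * C :=
          (hpq g g').trans (mul_le_mul_of_nonneg_right (mul_le_mul_of_nonneg_left hr hC0) hC0)
        have h2 : mSum v (col (a g) (u g) (u g') (b g) (b g')) ≤ C * r * C := by
          rw [hsz g g'] at h1
          have p1 := glSize_nonneg v ((a g)⁻¹ * a g')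
          have p3 := mSum_nonneg v (col (a g') (u g') (u g) (b g') (b g))
          have p4 := v.nonneg (((b g)⁻¹ * b g' : Kˣ) : K)
          have p5 := v.nonneg (((b g')⁻¹ * b g : Kˣ) : K)
          linarith
        have h3 : 0 ≤ mSum v (col (a g) (u g) (u g') (b g) (b g')) := mSum_nonneg _ _
        rw [hz1, mSum_smul, mul_comm]
        refine mul_le_mul ?_ (hF2' g' hg') (v.nonneg _)
          (mul_nonneg (hρ g hg) (h3.trans h2))
        refine (mSum_mul v _ _).trans ?_
        exact mul_le_mul ((mSum_le_glSize v _).trans (hF1 g hg)) h2 h3 (hρ g hg)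
      -- a bound for `z` bounds the group element
      have hback : ∀ g ∈ F, ∀ g' ∈ F, mSum v (z g' - z g) ≤ D₁ →
          mSum v (col (a g) (u g) (u g') (b g) (b g')) ≤ Real.exp ρ * (ρ * D₁) := by
        intro g hg g' hg' hD
        have h3 : 0 ≤ mSum v (z g' - z g) := mSum_nonneg _ _
        rw [hz2, mSum_smul]
        refine mul_le_mul (hF2 g' hg') ?_ (mSum_nonneg _ _) (Real.exp_nonneg _)
        refine (mSum_mul v _ _).trans ?_
        exact mul_le_mul ((mSum_le_glSize v _).trans (hF1' g hg)) hD h3 (hρ g hg)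
      have hbb : ∀ g ∈ F, ∀ g' ∈ F, v (((b g)⁻¹ * b g' : Kˣ) : K) ≤
          Real.exp ρ * Real.exp ρ := by
        intro g hg g' hg'
        have e : (b g)⁻¹ * b g' = ((b g)⁻¹ * b x₀) * ((b x₀)⁻¹ * b g') := by group
        rw [e, Units.val_mul, map_mul]
        exact mul_le_mul (hF2' g hg) (hF2 g' hg') (v.nonneg _) (Real.exp_nonneg _)
      have haa : ∀ g ∈ F, ∀ g' ∈ F, glSize v ((a g)⁻¹ * a g') ≤ ρ * ρ := by
        intro g hg g' hg'
        have e : (a g)⁻¹ * a g' = ((a g)⁻¹ * a x₀) * ((a x₀)⁻¹ * a g') := by group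
        rw [e]
        exact (glSize_mul v _ _).trans
          (mul_le_mul (hF1' g hg) (hF1 g' hg') (glSize_nonneg v _) (hρ g hg))
      rintro i x ⟨hxF, hxB⟩ y hxy
      -- the chain of `z`
      have hchain : (y ∈ F ∧ (fun j => z y j ()) ∈ B i) ∧
          Relation.ReflTransGen (Step (fun p q : n → K => ∑ j, v (p j - q j))
            (ρ * (C * r * C) * Real.exp ρ) (B i)) (fun j => z x j ()) (fun j => z y j ()) := by
        induction hxy with
        | refl => exact ⟨⟨hxF, hxB⟩, Relation.ReflTransGen.refl⟩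
        | tail _ hs ih =>
          obtain ⟨hs1, hs2⟩ := hs
          refine ⟨hs1, ih.2.tail ⟨hs1.2, ?_⟩⟩
          show ∑ j, v (z _ j () - z _ j ()) ≤ _
          rw [hsum, mSum_sub_comm]
          exact hstep _ ih.1.1 _ hs1.1 hs2
      have hyF : y ∈ F := hchain.1.1
      have hzD : mSum v (z y - z x) ≤ D₁ := by
        have := hB2 i _ hxB _ hchain.2
        rw [mSum_sub_comm, ← hsum]
        exact this
      have hzD' : mSum v (z x - z y) ≤ D₁ := by rw [mSum_sub_comm]; exact hzD
      refine (hqp x y).trans (mul_le_mul_of_nonneg_right (mul_le_mul_of_nonneg_left ?_ hC0) hC0)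
      rw [hsz x y]
      have q1 := haa x hxF y hyF
      have q2 := hback x hxF y hyF hzD
      have q3 := hback y hyF x hxF hzD'
      have q4 := hbb x hxF y hyF
      have q5 := hbb y hyF x hxF
      linarith

end Pool.Agent.Helper61.Apc
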